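import Pool.Agent.Helper37.KDB.Extra

/-! Project KDB, the piece D6. -/

set_option autoImplicit false

namespace KDB.I.D6

open MeasureTheory
open scoped ENNReal

/-- abstract doubling recursion -/
theorem doubling (P : ℕ → ℝ → Prop) (hmono : ∀ j D D', D ≤ D' → P j D → P j D') (a c : ℕ)
    (ring plus : ℕ → Prop) [DecidablePred ring] (nu : ℕ → ℝ) (hnu : ∀ j, 0 ≤ nu j)
    (h1 : ∀ j ∈ Finset.Ico a c, ring j → ∀ D, P j D → P (j + 1) (2 * D + 1))
    (h2 : ∀ j ∈ Finset.Ico a c, ring j → plus j → P (j + 1) 1)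
    (h3 : ∀ j ∈ Finset.Ico a c, ¬ ring j → ∀ D, P j D → P (j + 1) (D + nu j))
    (h4 : ∃ j ∈ Finset.Ico a c, ring j ∧ plus j) :
    P c (2 ^ ((Finset.Ico a c).filter ring).card *
      (2 + ∑ j ∈ Finset.Ico a c, if ring j then 0 else nu j)) := by
  obtain ⟨j0, hj0, hr0, hp0⟩ := h4
  have hj0' := Finset.mem_Ico.1 hj0
  have hnn : ∀ j, 0 ≤ (if ring j then (0 : ℝ) else nu j) := by
    intro j
    split_ifs
    · exact le_refl _
    · exact hnu j
  have key : ∀ d, j0 + 1 + d ≤ c →
      P (j0 + 1 + d) (2 ^ ((Finset.Ico (j0 + 1) (j0 + 1 + d)).filter ring).card *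
        (2 + ∑ j ∈ Finset.Ico (j0 + 1) (j0 + 1 + d), if ring j then 0 else nu j) - 1) := by
    intro d
    induction d with
    | zero =>
      intro _
      have h := h2 j0 hj0 hr0 hp0
      refine hmono _ _ _ ?_ h
      simp
      norm_num
    | succ d ih =>
      intro hd
      have hd' : j0 + 1 + d ≤ c := by omega
      have hih := ih hd'
      have hmem : j0 + 1 + d ∈ Finset.Ico a c := by
        rw [Finset.mem_Ico]
        omega
      have hIco : Finset.Ico (j0 + 1) (j0 + 1 + (d + 1)) =
          insert (j0 + 1 + d) (Finset.Ico (j0 + 1) (j0 + 1 + d)) := by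
        ext x
        simp only [Finset.mem_Ico, Finset.mem_insert]
        omega
      have hnot : j0 + 1 + d ∉ Finset.Ico (j0 + 1) (j0 + 1 + d) := by simp
      rw [hIco, Finset.sum_insert hnot]
      have hs : 0 ≤ ∑ j ∈ Finset.Ico (j0 + 1) (j0 + 1 + d), (if ring j then (0 : ℝ) else nu j) :=
        Finset.sum_nonneg fun j _ => hnn j
      by_cases hr : ring (j0 + 1 + d)
      · have hf : ((insert (j0 + 1 + d) (Finset.Ico (j0 + 1) (j0 + 1 + d))).filter ring).card =
            ((Finset.Ico (j0 + 1) (j0 + 1 + d)).filter ring).card + 1 := by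
          rw [Finset.filter_insert, if_pos hr, Finset.card_insert_of_notMem]
          simp
        rw [hf, if_pos hr]
        have h := h1 _ hmem hr _ hih
        refine hmono _ _ _ ?_ h
        rw [pow_succ]
        apply le_of_eq
        ring
      · have hf : ((insert (j0 + 1 + d) (Finset.Ico (j0 + 1) (j0 + 1 + d))).filter ring).card =
            ((Finset.Ico (j0 + 1) (j0 + 1 + d)).filter ring).card := by
          rw [Finset.filter_insert, if_neg hr]
        rw [hf, if_neg hr]
        have h := h3 _ hmem hr _ hih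
        refine hmono _ _ _ ?_ h
        have h1' : (1 : ℝ) ≤ 2 ^ ((Finset.Ico (j0 + 1) (j0 + 1 + d)).filter ring).card :=
          one_le_pow₀ (by norm_num)
        have h2' := hnu (j0 + 1 + d)
        nlinarith [mul_le_mul_of_nonneg_right h1' h2']
  have hc : j0 + 1 + (c - (j0 + 1)) = c := by omega
  have hk := key (c - (j0 + 1)) (by omega)
  rw [hc] at hk
  refine hmono _ _ _ ?_ hk
  have hsub : Finset.Ico (j0 + 1) c ⊆ Finset.Ico a c := by
    intro x hx
    rw [Finset.mem_Ico] at hx ⊢
    omega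
  have hcard : ((Finset.Ico (j0 + 1) c).filter ring).card ≤ ((Finset.Ico a c).filter ring).card :=
    Finset.card_le_card (Finset.filter_subset_filter _ hsub)
  have hsum : (∑ j ∈ Finset.Ico (j0 + 1) c, if ring j then (0 : ℝ) else nu j) ≤
      ∑ j ∈ Finset.Ico a c, if ring j then (0 : ℝ) else nu j :=
    Finset.sum_le_sum_of_subset_of_nonneg hsub fun j _ _ => hnn j
  have hs : 0 ≤ ∑ j ∈ Finset.Ico (j0 + 1) c, (if ring j then (0 : ℝ) else nu j) :=
    Finset.sum_nonneg fun j _ => hnn j
  have hpow : (2 : ℝ) ^ ((Finset.Ico (j0 + 1) c).filter ring).card ≤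
      2 ^ ((Finset.Ico a c).filter ring).card := pow_le_pow_right₀ (by norm_num) hcard
  have hmul := mul_le_mul hpow (add_le_add (le_refl (2 : ℝ)) hsum) (by linarith) (by positivity)
  linarith

end KDB.I.D6
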